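import Pool.Agent.Z9h40.HF.Irred

set_option autoImplicit false

namespace Pool.Agent.Z9h40.HF

open SimpleGraph Finset

theorem pigeon : ∀ t : Fin 3 → Bool, ∃ k : Fin 3, t (k + 1) = t (k + 2) := by
  decide

theorem split3 : ∀ (k i : Fin 3), i = k ∨ i = k + 1 ∨ i = k + 2 := by decide

theorem inj_left (a b : Fin 4 ⊕ Fin 4) (ha : (if a.isLeft then (1 : Fin 3) else 2) = 1)
    (hb : (if b.isLeft then (1 : Fin 3) else 2) = 1)
    (h : a.elim (fun a => a) (fun _ => 0) = b.elim (fun a => a) (fun _ => 0)) : a = b := by
  revert a b
  decide +kernel

theorem inj_right (a b : Fin 4 ⊕ Fin 4) (ha : (if a.isLeft then (1 : Fin 3) else 2) = 2)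
    (hb : (if b.isLeft then (1 : Fin 3) else 2) = 2)
    (h : a.elim (fun _ => 0) (fun a => a) = b.elim (fun _ => 0) (fun a => a)) : a = b := by
  revert a b
  decide +kernel

/-- `P * P * P = P * Q` -/
theorem prod_eq (n : ℕ) (G : SimpleGraph (Fin n)) :
    (∃ c : Fin n → Fin 3, ∀ i : Fin 3, In P (G.induce {v | c v = i})) ↔
    (∃ c : Fin n → Fin 2, ∀ j : Fin 2,
      In ((![P, Q] : Fin 2 → (n : ℕ) → SimpleGraph (Fin n) → Prop) j)
        (G.induce {v | c v = j})) := by
  constructor
  · rintro ⟨c, hc⟩
    have hc' : ∀ i, ∃ t, (G.induce {v | c v = i}).IsContained (T t) := fun i => in_P.1 (hc i)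
    choose t ht using hc'
    obtain ⟨k, hk⟩ := pigeon t
    classical
    refine ⟨fun v => if c v = k then 0 else 1, ?_⟩
    intro j
    fin_cases j
    · show In P _
      rw [in_P]
      have hmem : ∀ x : {v | (fun v => if c v = k then (0 : Fin 2) else 1) v = 0}, c x.1 = k := by
        intro x
        have := x.2
        simpa using this
      refine ⟨t k, IsContained.trans (B := G.induce {v | c v = k})
        ⟨⟨⟨fun x => ⟨x.1, hmem x⟩, fun h => h⟩, ?_⟩⟩ (ht k)⟩
      · intro x y hxy
        have := congrArg Subtype.val hxy
        exact Subtype.ext this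
    · show In Q _
      rw [in_Q]
      obtain ⟨f⟩ := ht (k + 1)
      have h2 := ht (k + 2)
      rw [← hk] at h2
      obtain ⟨g⟩ := h2
      refine ⟨t (k + 1), ⟨⟨⟨fun x => if h : c x.1 = k + 1 then .inl (f ⟨x.1, h⟩) else
        if h' : c x.1 = k + 2 then .inr (g ⟨x.1, h'⟩) else .inl 0, ?_⟩, ?_⟩⟩⟩
      · rintro ⟨x, hx⟩ ⟨y, hy⟩ hxy
        have hx' : c x ≠ k := by simpa using hx
        have hy' : c y ≠ k := by simpa using hy
        have hadj : G.Adj x y := hxy
        dsimp only
        by_cases h1 : c x = k + 1
        · by_cases h2 : c y = k + 1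
          · rw [dif_pos h1, dif_pos h2]
            exact f.toHom.map_adj (show (G.induce {v | c v = k + 1}).Adj ⟨x, h1⟩ ⟨y, h2⟩ from hadj)
          · have h3 : c y = k + 2 := by
              rcases split3 k (c y) with h | h | h
              · exact absurd h hy'
              · exact absurd h h2
              · exact h
            rw [dif_pos h1, dif_neg h2, dif_pos h3]
            trivial
        · have h3 : c x = k + 2 := by
            rcases split3 k (c x) with h | h | h
            · exact absurd h hx'
            · exact absurd h h1
            · exact h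
          by_cases h2 : c y = k + 1
          · rw [dif_neg h1, dif_pos h3, dif_pos h2]
            trivial
          · have h4 : c y = k + 2 := by
              rcases split3 k (c y) with h | h | h
              · exact absurd h hy'
              · exact absurd h h2
              · exact h
            rw [dif_neg h1, dif_pos h3, dif_neg h2, dif_pos h4]
            exact g.toHom.map_adj (show (G.induce {v | c v = k + 2}).Adj ⟨x, h3⟩ ⟨y, h4⟩ from hadj)
      · rintro ⟨x, hx⟩ ⟨y, hy⟩ hxy
        have hx' : c x ≠ k := by simpa using hx
        have hy' : c y ≠ k := by simpa using hy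
        have hxy' : (if h : c x = k + 1 then Sum.inl (f ⟨x, h⟩) else
          if h' : c x = k + 2 then Sum.inr (g ⟨x, h'⟩) else (Sum.inl 0 : Fin 4 ⊕ Fin 4)) =
          (if h : c y = k + 1 then Sum.inl (f ⟨y, h⟩) else
          if h' : c y = k + 2 then Sum.inr (g ⟨y, h'⟩) else (Sum.inl 0 : Fin 4 ⊕ Fin 4)) := hxy
        by_cases h1 : c x = k + 1
        · by_cases h2 : c y = k + 1
          · rw [dif_pos h1, dif_pos h2] at hxy'
            have h5 := congrArg Subtype.val (f.injective (Sum.inl_injective hxy'))
            exact Subtype.ext h5
          · have h3 : c y = k + 2 := by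
              rcases split3 k (c y) with h | h | h
              · exact absurd h hy'
              · exact absurd h h2
              · exact h
            rw [dif_pos h1, dif_neg h2, dif_pos h3] at hxy'
            exact absurd hxy' (by simp)
        · have h3 : c x = k + 2 := by
            rcases split3 k (c x) with h | h | h
            · exact absurd h hx'
            · exact absurd h h1
            · exact h
          by_cases h2 : c y = k + 1
          · rw [dif_neg h1, dif_pos h3, dif_pos h2] at hxy'
            exact absurd hxy' (by simp)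
          · have h4 : c y = k + 2 := by
              rcases split3 k (c y) with h | h | h
              · exact absurd h hy'
              · exact absurd h h2
              · exact h
            rw [dif_neg h1, dif_pos h3, dif_neg h2, dif_pos h4] at hxy'
            have h5 := congrArg Subtype.val (g.injective (Sum.inr_injective hxy'))
            exact Subtype.ext h5
  · rintro ⟨c, hc⟩
    have h0 : In P (G.induce {v | c v = 0}) := hc 0
    have h1 : In Q (G.induce {v | c v = 1}) := hc 1
    obtain ⟨t, ht⟩ := in_P.1 h0
    obtain ⟨s, ⟨g⟩⟩ := in_Q.1 h1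
    classical
    refine ⟨fun v => if h : c v = 1 then (if (g ⟨v, h⟩).isLeft then 1 else 2) else 0, ?_⟩
    intro i
    rw [in_P]
    fin_cases i
    · have hmem : ∀ x : {v | (fun v => if h : c v = 1 then
          (if (g ⟨v, h⟩).isLeft then (1 : Fin 3) else 2) else 0) v = 0}, c x.1 = 0 := by
        rintro ⟨x, hx⟩
        have hx' : (if h : c x = 1 then (if (g ⟨x, h⟩).isLeft then (1 : Fin 3) else 2) else 0) = 0 :=
          hx
        by_cases h : c x = 1
        · rw [dif_pos h] at hx'
          split_ifs at hx' <;> exact absurd hx' (by decide)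
        · show c x = 0
          omega
      refine ⟨t, IsContained.trans (B := G.induce {v | c v = 0})
        ⟨⟨⟨fun x => ⟨x.1, hmem x⟩, fun h => h⟩, ?_⟩⟩ ht⟩
      · intro x y hxy
        have := congrArg Subtype.val hxy
        exact Subtype.ext this
    · refine ⟨s, ⟨⟨⟨fun x => (if h : c x.1 = 1 then
        (g ⟨x.1, h⟩).elim (fun a => a) (fun _ => 0) else 0), ?_⟩, ?_⟩⟩⟩
      · rintro ⟨x, hx⟩ ⟨y, hy⟩ hxy
        have hx' : (if h : c x = 1 then (if (g ⟨x, h⟩).isLeft then (1 : Fin 3) else 2) else 0) = 1 :=
          hx
        have hy' : (if h : c y = 1 then (if (g ⟨y, h⟩).isLeft then (1 : Fin 3) else 2) else 0) = 1 :=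
          hy
        have hadj : G.Adj x y := hxy
        dsimp only
        by_cases h : c x = 1
        · by_cases h' : c y = 1
          · rw [dif_pos h] at hx'
            rw [dif_pos h'] at hy'
            rw [dif_pos h, dif_pos h']
            have h6 := g.toHom.map_adj (show (G.induce {v | c v = 1}).Adj ⟨x, h⟩ ⟨y, h'⟩ from hadj)
            change (join (T s) (T s)).Adj (g ⟨x, h⟩) (g ⟨y, h'⟩) at h6
            revert h6 hx' hy'
            generalize g ⟨x, h⟩ = a
            generalize g ⟨y, h'⟩ = b
            rcases a with a | a <;> rcases b with b | b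
            · intro _ _ h6
              exact h6
            · intro _ h7
              exact absurd h7 (by simp)
            · intro h7
              exact absurd h7 (by simp)
            · intro h7
              exact absurd h7 (by simp)
          · rw [dif_neg h'] at hy'
            exact absurd hy' (by decide)
        · rw [dif_neg h] at hx'
          exact absurd hx' (by decide)
      · rintro ⟨x, hx⟩ ⟨y, hy⟩ hxy
        have hx' : (if h : c x = 1 then (if (g ⟨x, h⟩).isLeft then (1 : Fin 3) else 2) else 0) = 1 :=
          hx
        have hy' : (if h : c y = 1 then (if (g ⟨y, h⟩).isLeft then (1 : Fin 3) else 2) else 0) = 1 :=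
          hy
        have hxy' : (if h : c x = 1 then
            (g ⟨x, h⟩).elim (fun a => a) (fun _ => 0) else 0) = (if h : c y = 1 then
            (g ⟨y, h⟩).elim (fun a => a) (fun _ => 0) else 0) := hxy
        by_cases h : c x = 1
        · by_cases h' : c y = 1
          · rw [dif_pos h] at hx'
            rw [dif_pos h'] at hy'
            rw [dif_pos h, dif_pos h'] at hxy'
            have h7 : g ⟨x, h⟩ = g ⟨y, h'⟩ := inj_left _ _ hx' hy' hxy'
            have h8 : (⟨x, h⟩ : {v | c v = 1}) = ⟨y, h'⟩ := g.injective h7
            have h9 : x = y := congrArg Subtype.val h8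
            exact Subtype.ext h9
          · rw [dif_neg h'] at hy'
            exact absurd hy' (by decide)
        · rw [dif_neg h] at hx'
          exact absurd hx' (by decide)
    · refine ⟨s, ⟨⟨⟨fun x => (if h : c x.1 = 1 then
        (g ⟨x.1, h⟩).elim (fun _ => 0) (fun a => a) else 0), ?_⟩, ?_⟩⟩⟩
      · rintro ⟨x, hx⟩ ⟨y, hy⟩ hxy
        have hx' : (if h : c x = 1 then (if (g ⟨x, h⟩).isLeft then (1 : Fin 3) else 2) else 0) = 2 :=
          hx
        have hy' : (if h : c y = 1 then (if (g ⟨y, h⟩).isLeft then (1 : Fin 3) else 2) else 0) = 2 :=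
          hy
        have hadj : G.Adj x y := hxy
        dsimp only
        by_cases h : c x = 1
        · by_cases h' : c y = 1
          · rw [dif_pos h] at hx'
            rw [dif_pos h'] at hy'
            rw [dif_pos h, dif_pos h']
            have h6 := g.toHom.map_adj (show (G.induce {v | c v = 1}).Adj ⟨x, h⟩ ⟨y, h'⟩ from hadj)
            change (join (T s) (T s)).Adj (g ⟨x, h⟩) (g ⟨y, h'⟩) at h6
            revert h6 hx' hy'
            generalize g ⟨x, h⟩ = a
            generalize g ⟨y, h'⟩ = b
            rcases a with a | a <;> rcases b with b | b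
            · intro h7
              exact absurd h7 (by simp)
            · intro h7
              exact absurd h7 (by simp)
            · intro _ h7
              exact absurd h7 (by simp)
            · intro _ _ h6
              exact h6
          · rw [dif_neg h'] at hy'
            exact absurd hy' (by decide)
        · rw [dif_neg h] at hx'
          exact absurd hx' (by decide)
      · rintro ⟨x, hx⟩ ⟨y, hy⟩ hxy
        have hx' : (if h : c x = 1 then (if (g ⟨x, h⟩).isLeft then (1 : Fin 3) else 2) else 0) = 2 :=
          hx
        have hy' : (if h : c y = 1 then (if (g ⟨y, h⟩).isLeft then (1 : Fin 3) else 2) else 0) = 2 :=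
          hy
        have hxy' : (if h : c x = 1 then
            (g ⟨x, h⟩).elim (fun _ => 0) (fun a => a) else 0) = (if h : c y = 1 then
            (g ⟨y, h⟩).elim (fun _ => 0) (fun a => a) else 0) := hxy
        by_cases h : c x = 1
        · by_cases h' : c y = 1
          · rw [dif_pos h] at hx'
            rw [dif_pos h'] at hy'
            rw [dif_pos h, dif_pos h'] at hxy'
            have h7 : g ⟨x, h⟩ = g ⟨y, h'⟩ := inj_right _ _ hx' hy' hxy'
            have h8 : (⟨x, h⟩ : {v | c v = 1}) = ⟨y, h'⟩ := g.injective h7
            have h9 : x = y := congrArg Subtype.val h8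
            exact Subtype.ext h9
          · rw [dif_neg h'] at hy'
            exact absurd hy' (by decide)
        · rw [dif_neg h] at hx'
          exact absurd hx' (by decide)

end Pool.Agent.Z9h40.HF
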