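import Mathlib

/-!
# Hereditary graph properties without unique factorization

Let `A = 2 K_2` and `C = P_3 ∪ K_1`; both have four vertices and two edges and their complements
are connected.  Let `P` consist of the subgraphs of `A` and of `C`, and `Q` of the subgraphs of the
joins `A + A` and `C + C`.  Both are irreducible and `P * P * P = P * Q`.
-/

set_option autoImplicit false

namespace Pool.Agent.Z9h40.HF

open SimpleGraph

/-- adjacency of the two graphs on four vertices: `false` is `2 K_2`, `true` is `P_3 ∪ K_1` -/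
def adj4 (t : Bool) (i j : Fin 4) : Bool :=
  match t with
  | false => (i = 0 ∧ j = 1) ∨ (i = 1 ∧ j = 0) ∨ (i = 2 ∧ j = 3) ∨ (i = 3 ∧ j = 2)
  | true => (i = 0 ∧ j = 1) ∨ (i = 1 ∧ j = 0) ∨ (i = 1 ∧ j = 2) ∨ (i = 2 ∧ j = 1)

/-- the two graphs on four vertices -/
def T (t : Bool) : SimpleGraph (Fin 4) where
  Adj i j := adj4 t i j = true
  symm := ⟨by cases t <;> decide⟩
  loopless := ⟨by cases t <;> decide⟩

instance (t : Bool) : DecidableRel (T t).Adj := fun i j => inferInstanceAs (Decidable (adj4 t i j = true))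

/-- the join of two graphs -/
def join {V W : Type} (G : SimpleGraph V) (H : SimpleGraph W) : SimpleGraph (V ⊕ W) where
  Adj x y := match x, y with
    | .inl a, .inl b => G.Adj a b
    | .inr a, .inr b => H.Adj a b
    | .inl _, .inr _ => True
    | .inr _, .inl _ => True
  symm := ⟨by
    rintro (a | a) (b | b) h
    · exact G.adj_symm h
    · trivial
    · trivial
    · exact H.adj_symm h⟩
  loopless := ⟨by
    rintro (a | a) h
    · exact G.loopless.irrefl a h
    · exact H.loopless.irrefl a h⟩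

instance {V W : Type} (G : SimpleGraph V) (H : SimpleGraph W) [DecidableRel G.Adj]
    [DecidableRel H.Adj] : DecidableRel (join G H).Adj := fun x y =>
  match x, y with
  | .inl a, .inl b => inferInstanceAs (Decidable (G.Adj a b))
  | .inr a, .inr b => inferInstanceAs (Decidable (H.Adj a b))
  | .inl _, .inr _ => isTrue trivial
  | .inr _, .inl _ => isTrue trivial

/-- closed under subgraphs and isomorphism -/
def Her (A : (n : ℕ) → SimpleGraph (Fin n) → Prop) : Prop :=
  ∀ (a b : ℕ) (G : SimpleGraph (Fin a)) (H : SimpleGraph (Fin b)) (f : H →g G),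
    Function.Injective f → A a G → A b H

/-- membership in a class for graphs on arbitrary vertex types -/
def In (A : (n : ℕ) → SimpleGraph (Fin n) → Prop) {V : Type} (G : SimpleGraph V) : Prop :=
  ∃ (r : ℕ) (K : SimpleGraph (Fin r)), A r K ∧ Nonempty (G ≃g K)

theorem In.mono {A : (n : ℕ) → SimpleGraph (Fin n) → Prop} (hA : Her A) {V W : Type} [Finite W]
    {G : SimpleGraph V} {H : SimpleGraph W} (f : H →g G) (hf : Function.Injective f)
    (h : In A G) : In A H := by
  obtain ⟨r, K, hK, ⟨e⟩⟩ := h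
  have := Fintype.ofFinite W
  refine ⟨Fintype.card W, H.overFin rfl, ?_, ⟨H.overFinIso rfl⟩⟩
  refine hA _ _ K _ ((e.toHom.comp f).comp (H.overFinIso rfl).symm.toHom) ?_ hK
  intro x y hxy
  exact (H.overFinIso rfl).symm.injective (hf (e.injective hxy))

theorem In.iff {A : (n : ℕ) → SimpleGraph (Fin n) → Prop} (hA : Her A) {n : ℕ}
    {G : SimpleGraph (Fin n)} : In A G ↔ A n G := by
  constructor
  · rintro ⟨r, K, hK, ⟨e⟩⟩
    exact hA _ _ K G e.toHom e.injective hK
  · intro h
    exact ⟨n, G, h, ⟨Iso.refl⟩⟩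

/-- the subgraphs of `A` and of `C` -/
def P (n : ℕ) (G : SimpleGraph (Fin n)) : Prop := ∃ t, G.IsContained (T t)

/-- the subgraphs of `A + A` and of `C + C` -/
def Q (n : ℕ) (G : SimpleGraph (Fin n)) : Prop := ∃ t, G.IsContained (join (T t) (T t))

theorem her_P : Her P := by
  rintro a b G H f hf ⟨t, ht⟩
  exact ⟨t, IsContained.trans ⟨⟨f, hf⟩⟩ ht⟩

theorem her_Q : Her Q := by
  rintro a b G H f hf ⟨t, ht⟩
  exact ⟨t, IsContained.trans ⟨⟨f, hf⟩⟩ ht⟩

theorem in_P {V : Type} [Finite V] {G : SimpleGraph V} : In P G ↔ ∃ t, G.IsContained (T t) := by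
  constructor
  · rintro ⟨r, K, ⟨t, ht⟩, ⟨e⟩⟩
    exact ⟨t, IsContained.trans ⟨e.toCopy⟩ ht⟩
  · rintro ⟨t, ⟨f⟩⟩
    refine In.mono her_P f.toHom f.injective ?_
    exact (In.iff her_P).2 ⟨t, IsContained.refl _⟩

theorem in_Q {V : Type} [Finite V] {G : SimpleGraph V} :
    In Q G ↔ ∃ t, G.IsContained (join (T t) (T t)) := by
  constructor
  · rintro ⟨r, K, ⟨t, ht⟩, ⟨e⟩⟩
    exact ⟨t, IsContained.trans ⟨e.toCopy⟩ ht⟩
  · rintro ⟨t, ⟨f⟩⟩
    refine In.mono her_Q f.toHom f.injective ?_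
    refine ⟨Fintype.card (Fin 4 ⊕ Fin 4), (join (T t) (T t)).overFin rfl, ⟨t, ?_⟩,
      ⟨(join (T t) (T t)).overFinIso rfl⟩⟩
    exact ⟨((join (T t) (T t)).overFinIso rfl).symm.toCopy⟩

theorem one_P : P 1 ⊥ := ⟨false, ⟨⟨⟨fun _ => 0, fun h => absurd h (by simp)⟩, fun _ _ _ =>
  Subsingleton.elim _ _⟩⟩⟩

theorem one_Q : Q 1 ⊥ := ⟨false, ⟨⟨⟨fun _ => .inl 0, fun h => absurd h (by simp)⟩, fun _ _ _ =>
  Subsingleton.elim _ _⟩⟩⟩

/-- adding all edges between a set and its complement -/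
def fill {V : Type} (G : SimpleGraph V) (S : Set V) : SimpleGraph V where
  Adj x y := G.Adj x y ∨ (x ∈ S ∧ y ∉ S) ∨ (x ∉ S ∧ y ∈ S)
  symm := ⟨by
    rintro x y (h | h | h)
    · exact Or.inl h.symm
    · exact Or.inr (Or.inr ⟨h.2, h.1⟩)
    · exact Or.inr (Or.inl ⟨h.2, h.1⟩)⟩
  loopless := ⟨by
    rintro x (h | h | h)
    · exact G.loopless.irrefl x h
    · exact h.2 h.1
    · exact h.1 h.2⟩

theorem fill_induce {V : Type} (G : SimpleGraph V) (S : Set V) :
    (fill G S).induce S = G.induce S := by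
  ext ⟨x, hx⟩ ⟨y, hy⟩
  simp [fill, hx, hy]

theorem fill_induce_compl {V : Type} (G : SimpleGraph V) (S : Set V) :
    (fill G S).induce Sᶜ = G.induce Sᶜ := by
  ext ⟨x, hx⟩ ⟨y, hy⟩
  have hx' : x ∉ S := hx
  have hy' : y ∉ S := hy
  simp [fill, hx', hy']

/-- a class closed under subgraphs which is the product of two classes -/
def Prod (R A B : (n : ℕ) → SimpleGraph (Fin n) → Prop) : Prop :=
  ∀ (n : ℕ) (G : SimpleGraph (Fin n)), (R n G ↔ ∃ S : Set (Fin n),
    In A (G.induce S) ∧ In B (G.induce Sᶜ))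

theorem Prod.iff {R A B : (n : ℕ) → SimpleGraph (Fin n) → Prop} (hR : Her R) (hA : Her A)
    (hB : Her B) (h : Prod R A B) {V : Type} [Finite V] (G : SimpleGraph V) :
    In R G ↔ ∃ S : Set V, In A (G.induce S) ∧ In B (G.induce Sᶜ) := by
  have := Fintype.ofFinite V
  let e := G.overFinIso rfl
  have h1 : In R G ↔ R _ (G.overFin rfl) := by
    rw [← In.iff hR]
    exact ⟨fun h => h.mono hR e.symm.toHom e.symm.injective, fun h => h.mono hR e.toHom e.injective⟩
  rw [h1, h]
  constructor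
  · rintro ⟨S, h1, h2⟩
    refine ⟨e ⁻¹' S, h1.mono hA ⟨fun x => ⟨e x.1, x.2⟩, ?_⟩ ?_,
      h2.mono hB ⟨fun x => ⟨e x.1, x.2⟩, ?_⟩ ?_⟩
    · intro a b hab
      exact e.map_rel_iff.2 hab
    · intro a b hab
      have := congrArg Subtype.val hab
      exact Subtype.ext (e.injective this)
    · intro a b hab
      exact e.map_rel_iff.2 hab
    · intro a b hab
      have := congrArg Subtype.val hab
      exact Subtype.ext (e.injective this)
  · rintro ⟨S, h1, h2⟩
    refine ⟨e.symm ⁻¹' S, h1.mono hA ⟨fun x => ⟨e.symm x.1, x.2⟩, ?_⟩ ?_,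
      h2.mono hB ⟨fun x => ⟨e.symm x.1, x.2⟩, ?_⟩ ?_⟩
    · intro a b hab
      exact e.symm.map_rel_iff.2 hab
    · intro a b hab
      have := congrArg Subtype.val hab
      exact Subtype.ext (e.symm.injective this)
    · intro a b hab
      exact e.symm.map_rel_iff.2 hab
    · intro a b hab
      have := congrArg Subtype.val hab
      exact Subtype.ext (e.symm.injective this)

end Pool.Agent.Z9h40.HF
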