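import Pool.Agent.Z9h40.HF.Defs

set_option autoImplicit false

namespace Pool.Agent.Z9h40.HF

open SimpleGraph Finset

open Classical in
/-- the number of ordered pairs of adjacent vertices -/
noncomputable def arcs {V : Type} [Fintype V] (G : SimpleGraph V) : ℕ :=
  (univ.filter fun p : V × V => G.Adj p.1 p.2).card

theorem arcs_eq {V : Type} [Fintype V] (G : SimpleGraph V) [DecidableRel G.Adj] :
    arcs G = (univ.filter fun p : V × V => G.Adj p.1 p.2).card := by
  unfold arcs
  congr

theorem arcs_mono {V W : Type} [Fintype V] [Fintype W] {G : SimpleGraph V} {H : SimpleGraph W}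
    (h : G.IsContained H) : arcs G ≤ arcs H := by
  classical
  obtain ⟨f⟩ := h
  unfold arcs
  refine Finset.card_le_card_of_injOn (fun p => (f p.1, f p.2)) ?_ ?_
  · intro p hp
    simp only [coe_filter, mem_univ, true_and, Set.mem_setOf_eq] at hp ⊢
    exact f.toHom.map_adj hp
  · rintro ⟨a, b⟩ - ⟨c, d⟩ - h
    simp only [Prod.mk.injEq] at h
    exact Prod.ext (f.injective h.1) (f.injective h.2)

theorem eq_of_arcs {V : Type} [Fintype V] {G F : SimpleGraph V} (h : G ≤ F)
    (h2 : arcs F ≤ arcs G) : F = G := by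
  classical
  unfold arcs at h2
  have h3 : (univ.filter fun p : V × V => G.Adj p.1 p.2) ⊆
      (univ.filter fun p : V × V => F.Adj p.1 p.2) := by
    intro p hp
    simp only [mem_filter, mem_univ, true_and] at hp ⊢
    exact h hp
  have h4 := Finset.eq_of_subset_of_card_le h3 h2
  ext x y
  have := Finset.ext_iff.1 h4 (x, y)
  simpa using this.symm

theorem le_fill {V : Type} (G : SimpleGraph V) (S : Set V) : G ≤ fill G S := fun _ _ h => Or.inl h

theorem cross_of_fill {V W : Type} [Fintype V] [Fintype W] {G : SimpleGraph V}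
    {H : SimpleGraph W} {S : Set V} (h : (fill G S).IsContained H) (h2 : arcs H ≤ arcs G) :
    ∀ x ∈ S, ∀ y ∉ S, G.Adj x y := by
  have h3 := eq_of_arcs (le_fill G S) ((arcs_mono h).trans h2)
  intro x hx y hy
  rw [← h3]
  exact Or.inr (Or.inl ⟨hx, hy⟩)

theorem arcs_T (t : Bool) : arcs (T t) = 4 := by
  rw [arcs_eq]
  cases t <;> decide +kernel

theorem arcs_join (s t : Bool) : arcs (join (T s) (T t)) = 40 := by
  rw [arcs_eq]
  cases s <;> cases t <;> decide +kernel

theorem cross_T : ∀ (t : Bool) (S : Finset (Fin 4)), (∀ x ∈ S, ∀ y ∉ S, (T t).Adj x y) →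
    S = ∅ ∨ S = univ := by
  decide +kernel

instance decJoin (t : Bool) (S : Finset (Fin 4 ⊕ Fin 4)) :
    Decidable (∀ x ∈ S, ∀ y ∉ S, (join (T t) (T t)).Adj x y) := inferInstance

instance decAlt (S : Finset (Fin 4 ⊕ Fin 4)) :
    Decidable (S = ∅ ∨ S = univ ∨ S = univ.filter (fun x => x.isLeft = true) ∨
      S = univ.filter (fun x => x.isLeft = false)) := inferInstance

theorem cross_join (t : Bool) : ∀ (S : Finset (Fin 4 ⊕ Fin 4)),
    (∀ x ∈ S, ∀ y ∉ S, (join (T t) (T t)).Adj x y) →
    S = ∅ ∨ S = univ ∨ S = univ.filter (fun x => x.isLeft = true) ∨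
      S = univ.filter (fun x => x.isLeft = false) := by
  cases t
  · decide +kernel
  · decide +kernel

/-- if `A * B = R`, `G₁ ∈ A` and `G₂ ∈ B`, then the join of `G₁` and `G₂` is in `R` -/
theorem Prod.join_mem {R A B : (n : ℕ) → SimpleGraph (Fin n) → Prop} (hR : Her R) (hA : Her A)
    (hB : Her B) (h : Prod R A B) {V W : Type} [Finite V] [Finite W] {G : SimpleGraph V}
    {H : SimpleGraph W} (h1 : In A G) (h2 : In B H) : In R (join G H) := by
  rw [Prod.iff hR hA hB h]
  refine ⟨{x | x.isLeft = true}, ?_, ?_⟩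
  · refine h1.mono hA (⟨fun x => x.1.getLeft x.2, ?_⟩) ?_
    · rintro ⟨(a | a), ha⟩ ⟨(b | b), hb⟩ hab
      · exact hab
      · simp at hb
      · simp at ha
      · simp at ha
    · rintro ⟨(a | a), ha⟩ ⟨(b | b), hb⟩ hab
      · have : a = b := hab
        subst this
        rfl
      · simp at hb
      · simp at ha
      · simp at ha
  · refine h2.mono hB (⟨fun x => x.1.getRight (by
      have := x.2
      simp only [Set.mem_compl_iff, Set.mem_setOf_eq, Bool.not_eq_true, Sum.isLeft_eq_false] at this
      exact this), ?_⟩) ?_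
    · rintro ⟨(a | a), ha⟩ ⟨(b | b), hb⟩ hab
      · simp at ha
      · simp at ha
      · simp at hb
      · exact hab
    · rintro ⟨(a | a), ha⟩ ⟨(b | b), hb⟩ hab
      · simp at ha
      · simp at ha
      · simp at hb
      · have : a = b := hab
        subst this
        rfl

theorem no_one_add {V W : Type} [Fintype V] [Fintype W] {G : SimpleGraph V} {H : SimpleGraph W}
    (hc : Fintype.card W < Fintype.card V) (h : G.IsContained H) : False := by
  obtain ⟨f⟩ := h
  have := Fintype.card_le_of_injective f f.injective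
  omega

theorem irred_P (A B : (n : ℕ) → SimpleGraph (Fin n) → Prop) (hA : Her A) (hB : Her B)
    (a1 : A 1 ⊥) (b1 : B 1 ⊥) : ¬ Prod P A B := by
  intro h
  have hT : In P (T false) := in_P.2 ⟨false, IsContained.refl _⟩
  have a1' : In A (⊥ : SimpleGraph (Fin 1)) := (In.iff hA).2 a1
  have b1' : In B (⊥ : SimpleGraph (Fin 1)) := (In.iff hB).2 b1
  obtain ⟨S, h1, h2⟩ := (Prod.iff her_P hA hB h _).1 hT
  have h3 : In P (fill (T false) S) := by
    rw [Prod.iff her_P hA hB h]
    exact ⟨S, by rwa [fill_induce], by rwa [fill_induce_compl]⟩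
  obtain ⟨t, ht⟩ := in_P.1 h3
  have h4 := cross_of_fill ht (by rw [arcs_T, arcs_T])
  classical
  have h5 := cross_T false S.toFinset (by simpa using h4)
  rcases h5 with h5 | h5
  · have hS : S = ∅ := by simpa using h5
    subst hS
    have h6 : In B (T false) := by
      refine h2.mono hB ⟨fun x => ⟨x, by simp⟩, fun h => h⟩ ?_
      intro x y hxy
      exact congrArg Subtype.val hxy
    have h7 := Prod.join_mem her_P hA hB h a1' h6
    obtain ⟨t', ht'⟩ := in_P.1 h7
    exact no_one_add (by simp) ht'
  · have hS : S = Set.univ := by simpa using h5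
    subst hS
    have h6 : In A (T false) := by
      refine h1.mono hA ⟨fun x => ⟨x, by simp⟩, fun h => h⟩ ?_
      intro x y hxy
      exact congrArg Subtype.val hxy
    have h7 := Prod.join_mem her_P hA hB h h6 b1'
    obtain ⟨t', ht'⟩ := in_P.1 h7
    exact no_one_add (by simp) ht'

/-- the number of vertices with at least `k` neighbours -/
def big {V : Type} [Fintype V] (G : SimpleGraph V) [DecidableRel G.Adj] (k : ℕ) : ℕ :=
  (univ.filter fun v => k ≤ (univ.filter fun w => G.Adj v w).card).card

theorem big_mono {V W : Type} [Fintype V] [Fintype W] {G : SimpleGraph V} {H : SimpleGraph W}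
    [DecidableRel G.Adj] [DecidableRel H.Adj]
    (h : G.IsContained H) (k : ℕ) : big G k ≤ big H k := by
  obtain ⟨f⟩ := h
  unfold big
  refine Finset.card_le_card_of_injOn f ?_ (f.injective.injOn)
  intro v hv
  simp only [coe_filter, mem_univ, true_and, Set.mem_setOf_eq] at hv ⊢
  refine hv.trans (Finset.card_le_card_of_injOn f ?_ (f.injective.injOn))
  intro w hw
  simp only [coe_filter, mem_univ, true_and, Set.mem_setOf_eq] at hw ⊢
  exact f.toHom.map_adj hw

theorem mixed_not_mem : ¬ In Q (join (T false) (T true)) := by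
  intro h
  obtain ⟨t, ht⟩ := in_Q.1 h
  cases t
  · have := big_mono ht 6
    revert this
    decide +kernel
  · have := big_mono ht 5
    revert this
    decide +kernel

theorem irred_Q_aux (A B : (n : ℕ) → SimpleGraph (Fin n) → Prop) (hA : Her A) (hB : Her B)
    (a1 : A 1 ⊥) (b1 : B 1 ⊥) (h : Prod Q A B) (t : Bool) : In A (T t) ∧ In B (T t) := by
  have hT : In Q (join (T t) (T t)) := in_Q.2 ⟨t, IsContained.refl _⟩
  have a1' : In A (⊥ : SimpleGraph (Fin 1)) := (In.iff hA).2 a1
  have b1' : In B (⊥ : SimpleGraph (Fin 1)) := (In.iff hB).2 b1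
  obtain ⟨S, h1, h2⟩ := (Prod.iff her_Q hA hB h _).1 hT
  have h3 : In Q (fill (join (T t) (T t)) S) := by
    rw [Prod.iff her_Q hA hB h]
    exact ⟨S, by rwa [fill_induce], by rwa [fill_induce_compl]⟩
  obtain ⟨t', ht⟩ := in_Q.1 h3
  have h4 := cross_of_fill ht (by rw [arcs_join, arcs_join])
  classical
  have h5 := cross_join t S.toFinset (by simpa using h4)
  rcases h5 with h5 | h5 | h5 | h5
  · exfalso
    have hS : S = ∅ := by simpa using h5
    subst hS
    have h6 : In B (join (T t) (T t)) := by
      refine h2.mono hB ⟨fun x => ⟨x, by simp⟩, fun h => h⟩ ?_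
      intro x y hxy
      exact congrArg Subtype.val hxy
    have h7 := Prod.join_mem her_Q hA hB h a1' h6
    obtain ⟨t', ht'⟩ := in_Q.1 h7
    exact no_one_add (by simp) ht'
  · exfalso
    have hS : S = Set.univ := by simpa using h5
    subst hS
    have h6 : In A (join (T t) (T t)) := by
      refine h1.mono hA ⟨fun x => ⟨x, by simp⟩, fun h => h⟩ ?_
      intro x y hxy
      exact congrArg Subtype.val hxy
    have h7 := Prod.join_mem her_Q hA hB h h6 b1'
    obtain ⟨t', ht'⟩ := in_Q.1 h7
    exact no_one_add (by simp) ht'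
  · have hS : ∀ x, x ∈ S ↔ x.isLeft = true := by
      intro x
      have := Finset.ext_iff.1 h5 x
      simpa using this
    constructor
    · refine h1.mono hA ⟨fun x => ⟨.inl x, (hS _).2 rfl⟩, fun h => h⟩ ?_
      intro x y hxy
      exact Sum.inl_injective (congrArg Subtype.val hxy)
    · refine h2.mono hB ⟨fun x => ⟨.inr x, fun h => by simpa using (hS _).1 h⟩, fun h => h⟩ ?_
      intro x y hxy
      exact Sum.inr_injective (congrArg Subtype.val hxy)
  · have hS : ∀ x, x ∈ S ↔ x.isLeft = false := by
      intro x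
      have := Finset.ext_iff.1 h5 x
      simpa using this
    constructor
    · refine h1.mono hA ⟨fun x => ⟨.inr x, (hS _).2 rfl⟩, fun h => h⟩ ?_
      intro x y hxy
      exact Sum.inr_injective (congrArg Subtype.val hxy)
    · refine h2.mono hB ⟨fun x => ⟨.inl x, fun h => by simpa using (hS _).1 h⟩, fun h => h⟩ ?_
      intro x y hxy
      exact Sum.inl_injective (congrArg Subtype.val hxy)

theorem irred_Q (A B : (n : ℕ) → SimpleGraph (Fin n) → Prop) (hA : Her A) (hB : Her B)
    (a1 : A 1 ⊥) (b1 : B 1 ⊥) : ¬ Prod Q A B := by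
  intro h
  exact mixed_not_mem (Prod.join_mem her_Q hA hB h (irred_Q_aux A B hA hB a1 b1 h false).1
    (irred_Q_aux A B hA hB a1 b1 h true).2)

end Pool.Agent.Z9h40.HF
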